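import Mathlib

namespace Pool.Agent.H.MP_ee0f4e_nt

open Finset

noncomputable def sol (w : ℕ → ℕ → ℚ) (a : ℕ → ℚ) (m : ℕ) : ℚ :=
  (a m - ∑ k : Fin m, w m k * sol w a k) / w m m
decreasing_by exact k.2

theorem exists_sol (w : ℕ → ℕ → ℚ) (a : ℕ → ℚ) (hw : ∀ m, w m m ≠ 0) :
    ∃ c : ℕ → ℚ, ∀ m, a m = ∑ k ∈ range (m + 1), w m k * c k := by
  refine ⟨sol w a, fun m => ?_⟩
  rw [sum_range_succ]
  have h : w m m * sol w a m = a m - ∑ k : Fin m, w m k * sol w a k := by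
    rw [sol]; field_simp [hw m]
  rw [h, Fin.sum_univ_eq_sum_range (fun k => w m k * sol w a k) m]
  ring

/-- weights and bases of the two linear forms -/
def f5 (r : ℕ) : ℕ := 2310 * (1 ^ r) + 2172 * (1 ^ r + 6 ^ r + 6 ^ r)
  + 2078 * (1 ^ r + 12 ^ r + 30 ^ r + 20 ^ r)
  + (1 ^ r + 30 ^ r + 210 ^ r + 560 ^ r + 630 ^ r + 252 ^ r)

def f8 (r : ℕ) : ℕ := 6095 * (1 ^ r) + 6156 * (1 ^ r + 2 ^ r) + 259 * (1 ^ r + 6 ^ r + 6 ^ r)
  + 1665 * (1 ^ r + 12 ^ r + 30 ^ r + 20 ^ r)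
  + 2466 * (1 ^ r + 30 ^ r + 210 ^ r + 560 ^ r + 630 ^ r + 252 ^ r)
  + 1178 * (1 ^ r + 42 ^ r + 420 ^ r + 1680 ^ r + 3150 ^ r + 2772 ^ r + 924 ^ r)
  + 1863 * (1 ^ r + 56 ^ r + 756 ^ r + 4200 ^ r + 11550 ^ r + 16632 ^ r + 12012 ^ r + 3432 ^ r)
  + (1 ^ r + 72 ^ r + 1260 ^ r + 9240 ^ r + 34650 ^ r + 72072 ^ r + 84084 ^ r + 51480 ^ r
      + 12870 ^ r)

theorem pow_per (x r : ℕ) (hr : 8 ≤ r) : x ^ (r + 4374) ≡ x ^ r [MOD 6561] := by
  by_cases h : 3 ∣ x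
  · have h1 : ∀ t, 8 ≤ t → 6561 ∣ x ^ t := fun t ht =>
      (show (6561 : ℕ) ∣ x ^ 8 from pow_dvd_pow_of_dvd h 8).trans (pow_dvd_pow x ht)
    exact (Nat.modEq_zero_iff_dvd.2 (h1 _ (by omega))).trans
      (Nat.modEq_zero_iff_dvd.2 (h1 _ hr)).symm
  · have hc : Nat.Coprime x (3 ^ 8) :=
      Nat.Coprime.pow_right 8 ((Nat.Prime.coprime_iff_not_dvd Nat.prime_three).2 h).symm
    have h2 := Nat.ModEq.pow_totient hc
    rw [Nat.totient_prime_pow Nat.prime_three (by norm_num)] at h2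
    have h3 : x ^ 4374 ≡ 1 [MOD 6561] := h2
    have h4 := h3.mul_left (x ^ r)
    rwa [← pow_add, mul_one] at h4

theorem f5_per (r t : ℕ) (this : ∀ x : ℕ, x ^ t ≡ x ^ r [MOD 6561]) :
    f5 t ≡ f5 r [MOD 6561] := by
  unfold f5
  gcongr <;> exact this _

theorem f8_per (r t : ℕ) (this : ∀ x : ℕ, x ^ t ≡ x ^ r [MOD 6561]) :
    f8 t ≡ f8 r [MOD 6561] := by
  unfold f8
  gcongr <;> exact this _

def chk : ℕ → Bool
  | 0 => true
  | n + 1 => (f5 (n + 5) % 6561 != 0 || f8 (n + 5) % 6561 != 0) && chk n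

theorem chk_ok : chk 4378 = true := by decide +kernel

theorem chk_spec : ∀ n, chk n = true → ∀ i < n,
    ¬ (f5 (i + 5) % 6561 = 0 ∧ f8 (i + 5) % 6561 = 0) := by
  intro n
  induction n with
  | zero => intro _ i hi; omega
  | succ n ih =>
    intro h i hi
    simp only [chk, Bool.and_eq_true, Bool.or_eq_true, bne_iff_ne] at h
    rcases Nat.lt_succ_iff_lt_or_eq.1 hi with h1 | rfl
    · exact ih h.2 i h1
    · rintro ⟨a, b⟩
      rcases h.1 with c | c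
      · exact c a
      · exact c b

theorem key : ∀ r, 4 < r → ¬ (f5 r % 6561 = 0 ∧ f8 r % 6561 = 0) := by
  intro r
  induction r using Nat.strong_induction_on with
  | _ r ih =>
    intro hr
    by_cases h : r < 4383
    · have := chk_spec 4378 chk_ok (r - 5) (by omega)
      rwa [show r - 5 + 5 = r by omega] at this
    · obtain ⟨t, rfl⟩ : ∃ t, r = t + 4374 := ⟨r - 4374, by omega⟩
      have a := f5_per t _ (fun x => pow_per x t (by omega))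
      have b := f8_per t _ (fun x => pow_per x t (by omega))
      unfold Nat.ModEq at a b
      rw [a, b]
      exact ih t (by omega) (by omega)

theorem main (r : ℕ) (hr : 4 < r) (c : ℕ → ℚ)
    (h : ∀ m, (∑ k ∈ range (m + 1), (m.choose k : ℚ) ^ r * ((m + k).choose k : ℚ) ^ r)
      = ∑ k ∈ range (m + 1), (m.choose k : ℚ) ^ 4 * ((m + k).choose k : ℚ) ^ 4 * c k) :
    ¬ ∀ k ≤ 8, ∃ z : ℤ, c k = z := by
  intro hz
  obtain ⟨z0, h0⟩ := hz 0 (by norm_num)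
  obtain ⟨z1, h1⟩ := hz 1 (by norm_num)
  obtain ⟨z2, h2⟩ := hz 2 (by norm_num)
  obtain ⟨z3, h3⟩ := hz 3 (by norm_num)
  obtain ⟨z4, h4⟩ := hz 4 (by norm_num)
  obtain ⟨z5, h5⟩ := hz 5 (by norm_num)
  obtain ⟨z6, h6⟩ := hz 6 (by norm_num)
  obtain ⟨z7, h7⟩ := hz 7 (by norm_num)
  obtain ⟨z8, h8⟩ := hz 8 (by norm_num)
  have e0 := h 0
  have e1 := h 1
  have e2 := h 2
  have e3 := h 3
  have e5 := h 5
  have e6 := h 6
  have e7 := h 7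
  have e8 := h 8
  simp only [← mul_pow] at e0 e1 e2 e3 e5 e6 e7 e8
  simp only [sum_range_succ, range_zero, sum_empty, h0, h1, h2, h3, h4, h5, h6, h7, h8]
    at e0 e1 e2 e3 e5 e6 e7 e8
  norm_num [Nat.choose] at e0 e1 e2 e3 e5 e6 e7 e8
  apply key r hr
  have g5 : ((f5 r : ℕ) : ℚ) = 2310 * 1 + 2172 * (1 + 6 ^ r + 6 ^ r)
      + 2078 * (1 + 12 ^ r + 30 ^ r + 20 ^ r)
      + (1 + 30 ^ r + 210 ^ r + 560 ^ r + 630 ^ r + 252 ^ r) := by
    unfold f5; push_cast; simp only [one_pow]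
  have g8 : ((f8 r : ℕ) : ℚ) = 6095 * 1 + 6156 * (1 + 2 ^ r) + 259 * (1 + 6 ^ r + 6 ^ r)
      + 1665 * (1 + 12 ^ r + 30 ^ r + 20 ^ r)
      + 2466 * (1 + 30 ^ r + 210 ^ r + 560 ^ r + 630 ^ r + 252 ^ r)
      + 1178 * (1 + 42 ^ r + 420 ^ r + 1680 ^ r + 3150 ^ r + 2772 ^ r + 924 ^ r)
      + 1863 * (1 + 56 ^ r + 756 ^ r + 4200 ^ r + 11550 ^ r + 16632 ^ r + 12012 ^ r + 3432 ^ r)
      + (1 + 72 ^ r + 1260 ^ r + 9240 ^ r + 34650 ^ r + 72072 ^ r + 84084 ^ r + 51480 ^ r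
          + 12870 ^ r) := by
    unfold f8; push_cast; simp only [one_pow]
  rw [e2, e3, e5] at g5
  rw [e1, e2, e3, e5, e6, e7, e8] at g8
  have k0 : z0 = 1 := by exact_mod_cast e0.symm
  subst k0
  generalize f5 r = u at g5
  generalize f8 r = v at g8
  norm_cast at g5 g8
  constructor
  · omega
  · omega

end Pool.Agent.H.MP_ee0f4e_nt
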